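import Mathlib
import Pool.Agent.Q51.HG.UnitPts
import Pool.Agent.Q51.HG.Proj
import Pool.Agent.Q51.HG.Ent
import Pool.Agent.Q51.HG.SmoothCI

set_option autoImplicit false

/-!
# Hyperbolicity and rational points for general complete intersections: sums of `r` units

Let `X` be a complete intersection of forms `F 1, …, F q` of degrees `d 1, …, d q > 0` in projective
`n`-space over a number field `K`. Suppose that `2 n + 1 ≤ ∑ (d i + 1)` (for a hypersurface: degree at
least `2 n`), or that `2 n - 1 ≤ ∑ (d i + 1)` and `n - q ≥ 5` or `3 n + 3 ≤ 2 ∑ d i + q` (for a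
hypersurface and `n ≥ 6`: degree at least `2 n - 2`; for `∑ (d i + 1) ≤ 2 n - 2` general `X` contain
lines). For every `r` there is a nonzero polynomial `h` with integral coefficients in the coefficients
of the forms, such that for ALL number fields `K` and all forms over `K` with `h (F) ≠ 0` (that is,
for 100 percent of the complete intersections, over every number field) `X` is smooth, and Brody
hyperbolicity and the finiteness of rational points hold, when restricted to sums of `r` units: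

* for every embedding `σ` of `K` in the complex numbers all holomorphic maps from the complex plane to
  `X_σ` are constant, if their homogeneous coordinates are linear combinations of `r` entire functions
  without zeros (units), or which are `m`-th powers of entire functions, `m ≥ C(r + d i - 1, d i) ^ 2`;
* for all number fields `L ⊇ K` and all finite sets `S` of primes of `L` there are only finitely many
  points in `X(L)` all of whose homogeneous coordinates are sums of at most `r` `S`-units.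
-/

namespace Pool.Agent.Results.MP_627a61_nt.GeneralCompleteInters

open MvPolynomial IsDedekindDomain NumberField
open scoped LinearAlgebra.Projectivization

/-- The indices of the coefficients of `q` forms of degrees `d i` in `n + 1` variables. -/
abbrev Index (n : ℕ) {q : ℕ} (d : Fin q → ℕ) : Type :=
  (i : Fin q) × {α : Fin (n + 1) →₀ ℕ // α.degree = d i}

/-- The value of the polynomial `h` at the coefficients of the forms `F i`. -/
noncomputable def valueAt {n q : ℕ} {d : Fin q → ℕ} {K : Type} [Field K]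
    (h : MvPolynomial (Index n d) ℤ) (F : Fin q → MvPolynomial (Fin (n + 1)) K) : K :=
  aeval (fun x : Index n d => coeff x.2.1 (F x.1)) h

/-- The range of the degrees. -/
def Range (n : ℕ) {q : ℕ} (d : Fin q → ℕ) : Prop :=
  2 * n + 1 ≤ ∑ i, (d i + 1) ∨
    (2 * n ≤ ∑ i, (d i + 1) + 1 ∧ (q + 5 ≤ n ∨ 3 * n + 3 ≤ 2 * ∑ i, d i + q))

/-- `x` is a vector of homogeneous coordinates of a point of `X = {F = 0}`. -/
def On {n q : ℕ} {K Ω : Type} [Field K] [Field Ω] [Algebra K Ω]
    (F : Fin q → MvPolynomial (Fin (n + 1)) K) (x : Fin (n + 1) → Ω) : Prop :=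
  x ≠ 0 ∧ ∀ i, aeval x (F i) = 0

/-- `X = {F = 0}` is a smooth complete intersection: the gradients of the forms are linearly
independent in its points. -/
def Smooth {n q : ℕ} {K : Type} [Field K] (F : Fin q → MvPolynomial (Fin (n + 1)) K) : Prop :=
  ∀ (Ω : Type) [Field Ω] [Algebra K Ω] (x : Fin (n + 1) → Ω), On F x →
    LinearIndependent Ω (fun i => fun k => aeval x (pderiv k (F i)))

/-- The entire curves whose homogeneous coordinates are linear combinations of `r` entire functions,
each without zeros or an `m`-th power, are constant. -/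
def CurvesConstant (r m : ℕ) {n q : ℕ} {K : Type} [Field K] (σ : K →+* ℂ)
    (F : Fin q → MvPolynomial (Fin (n + 1)) K) : Prop :=
  ∀ (c : Fin r → Fin (n + 1) → ℂ) (g : Fin r → ℂ → ℂ),
    (∀ j, Differentiable ℂ (g j) ∧
      ((∀ z, g j z ≠ 0) ∨ ∃ p : ℂ → ℂ, Differentiable ℂ p ∧ ∀ z, g j z = p z ^ m)) →
    (∃ z i, ∑ j, c j i * g j z ≠ 0) →
    (∀ z a, eval₂ σ (fun i => ∑ j, c j i * g j z) (F a) = 0) →
    ∀ z w i k, (∑ j, c j i * g j z) * (∑ j, c j k * g j w) =
      (∑ j, c j k * g j z) * (∑ j, c j i * g j w)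

/-- The points of `X(L)` all of whose homogeneous coordinates are sums of at most `r` `S`-units are
finite in number. -/
def UnitSumsFinite (r : ℕ) {n q : ℕ} {K : Type} [Field K]
    (F : Fin q → MvPolynomial (Fin (n + 1)) K) : Prop :=
  ∀ (L : Type) [Field L] [NumberField L] [Algebra K L] (S : Set (HeightOneSpectrum (𝓞 L))),
    S.Finite → {P : ℙ L (Fin (n + 1) → L) | ∃ (x : Fin (n + 1) → L) (h : x ≠ 0),
      P = Projectivization.mk L x h ∧ On F x ∧
      ∀ a, ∃ (J : Finset (Fin r)) (u : Fin r → Lˣ), (∀ j, u j ∈ S.unit L) ∧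
        x a = ∑ j ∈ J, (u j : L)}.Finite

theorem valueAt_eq {n q : ℕ} {d : Fin q → ℕ} {K : Type} [Field K]
    (h : MvPolynomial (Index n d) ℤ) (F : Fin q → MvPolynomial (Fin (n + 1)) K) :
    valueAt h F = Pool.Agent.Q51.HG.sp d F h := rfl

theorem smooth_of {n q : ℕ} {d : Fin q → ℕ} {h : MvPolynomial (Index n d) ℤ}
    (hh : ∀ (L : Type) [Field L] (F : Fin q → MvPolynomial (Fin (n + 1)) L),
      (∀ i, (F i).IsHomogeneous (d i)) → Pool.Agent.Q51.HG.sp d F h ≠ 0 →
      ∀ x : Fin (n + 1) → L, x ≠ 0 → (∀ i, eval x (F i) = 0) →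
      LinearIndependent L (fun i => fun k => eval x (pderiv k (F i))))
    {K : Type} [Field K] (F : Fin q → MvPolynomial (Fin (n + 1)) K)
    (hF : ∀ i, (F i).IsHomogeneous (d i)) (hv : valueAt h F ≠ 0) : Smooth F := by
  intro Ω _ _ x hx
  have h1 := hh Ω (fun i => map (algebraMap K Ω) (F i)) (fun i => (hF i).map _) (by
    rw [Pool.Agent.Q51.HG.sp_map]
    exact (map_ne_zero _).2 hv) x hx.1 (fun i => by
      rw [eval_map, ← aeval_def]
      exact hx.2 i)
  have h2 : (fun i => fun k => eval x (pderiv k (map (algebraMap K Ω) (F i)))) =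
      (fun i => fun k => aeval x (pderiv k (F i))) := by
    funext i k
    rw [pderiv_map, eval_map, ← aeval_def]
  rw [h2] at h1
  exact h1

theorem curves_of {n q r m : ℕ} {d : Fin q → ℕ} {h : MvPolynomial (Index n d) ℤ}
    (hh : ∀ (L : Type) [Field L]
      (F : Fin q → MvPolynomial (Fin (n + 1)) L), (∀ i, (F i).IsHomogeneous (d i)) →
      Pool.Agent.Q51.HG.sp d F h ≠ 0 → ∀ (c : Fin r → Fin (n + 1) → L) (l : Fin r → ℕ),
      (∀ i ∈ Finset.univ, aeval (Pool.Agent.H533R3.SL.cur c l) (F i) = 0) →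
      (∀ i, i ∉ Finset.univ → ∃ v, (aeval (Pool.Agent.H533R3.SL.cur c l) (F i)).coeff v ≠ 0 ∧
        ∀ t, t ≠ v → (aeval (Pool.Agent.H533R3.SL.cur c l) (F i)).coeff t = 0) →
      ∀ i1 i2, Pool.Agent.H533R3.SL.cur c l i1 * Polynomial.C (∑ j, c j i2) =
        Pool.Agent.H533R3.SL.cur c l i2 * Polynomial.C (∑ j, c j i1))
    {K : Type} [Field K] (F : Fin q → MvPolynomial (Fin (n + 1)) K)
    (hF : ∀ i, (F i).IsHomogeneous (d i)) (hv : valueAt h F ≠ 0) (hm0 : 0 < m)
    (hm : ∀ i, (r + d i - 1).choose (d i) ^ 2 ≤ m) (σ : K →+* ℂ) : CurvesConstant r m σ F := by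
  intro c g hg hne hFg
  have hroot : ∀ j, ∃ p : ℂ → ℂ, Differentiable ℂ p ∧ ∀ z, g j z = p z ^ m := by
    intro j
    obtain ⟨h3, h4 | h4⟩ := hg j
    · obtain ⟨p, hp, hp2⟩ := Pool.Agent.H159R3.Toric.root (g j) h3 h4 hm0
      exact ⟨p, hp, fun z => (hp2 z).symm⟩
    · exact h4
  choose p hp hgp using hroot
  have hfp : ∀ z i, ∑ j, c j i * g j z = Pool.Agent.Q51.HG.pcv c p m z i := by
    intro z i
    unfold Pool.Agent.Q51.HG.pcv
    exact Finset.sum_congr rfl fun j _ => by rw [hgp]
  have key := Pool.Agent.Q51.HG.no_entire d Finset.univ (fun i => map σ (F i))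
    (fun i => (hF i).map _) (hh ℂ (fun i => map σ (F i)) (fun i => (hF i).map _) (by
      rw [Pool.Agent.Q51.HG.sp_map]
      exact (map_ne_zero _).2 hv)) hm0 hm
    c p hp (by
      obtain ⟨z, i, hz⟩ := hne
      refine ⟨z, fun h0 => hz ?_⟩
      rw [hfp, h0]
      rfl) (fun a _ z => by
        rw [eval_map, ← hFg z a]
        congr 1
        funext i
        exact (hfp z i).symm)
    (fun i hi => absurd (Finset.mem_univ i) hi)
  intro z w i k
  simp only [hfp]
  exact key z w i k

theorem result (n : ℕ) {q : ℕ} (d : Fin q → ℕ) (hn : 1 ≤ n) (hd0 : ∀ i, 0 < d i)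
    (hd : Range n d) (r : ℕ) :
    ∃ h : MvPolynomial (Index n d) ℤ, h ≠ 0 ∧
      ∀ (K : Type) [Field K] [NumberField K] (F : Fin q → MvPolynomial (Fin (n + 1)) K),
        (∀ i, (F i).IsHomogeneous (d i)) → valueAt h F ≠ 0 →
        Smooth F ∧
        (∀ (σ : K →+* ℂ) (m : ℕ), 0 < m → (∀ i, (r + d i - 1).choose (d i) ^ 2 ≤ m) →
          CurvesConstant r m σ F) ∧
        UnitSumsFinite r F := by
  have hgm := Pool.Agent.Q51.HG.noGm_range hn d hd0 hd
  obtain ⟨h1, h10, h1s⟩ := Pool.Agent.Q51.HG.gen_sparse_of d Finset.univ hgm r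
  obtain ⟨h2, h20, h2s⟩ := Pool.Agent.Q51.HG.gen_smooth_ci n d
  obtain ⟨h5, h50, h5s⟩ := Pool.Agent.Q51.HG.gen_noCurP d Finset.univ hgm ((n + 1) * r)
  refine ⟨h1 * h2 * h5, mul_ne_zero (mul_ne_zero h10 h20) h50, fun K _ _ F hF hv => ?_⟩
  rw [valueAt_eq, map_mul, map_mul] at hv
  have hv5 := right_ne_zero_of_mul hv
  have hv1 := left_ne_zero_of_mul (left_ne_zero_of_mul hv)
  have hv2 := right_ne_zero_of_mul (left_ne_zero_of_mul hv)
  refine ⟨smooth_of h2s F hF hv2, fun σ m hm0 hm => curves_of h1s F hF hv1 hm0 hm σ, ?_⟩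
  intro L _ _ _ S hS
  refine (Pool.Agent.Q51.HG.proj_units (L := L) (r := r) F hF (h5s K F hF hv5) S hS).subset ?_
  rintro P ⟨x, h0, hP, hon, hu⟩
  exact ⟨x, ⟨hon.2, hu⟩, h0, hP⟩

end Pool.Agent.Results.MP_627a61_nt.GeneralCompleteInters
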