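import Mathlib
import Pool.Agent.Q29.SE.Dich

/-!
# Rational points given by short sums of power products, in any base, on hyperbolic varieties

Let `k` be a number field and `t` an algebraic integer of `k` of large norm.  We consider the points
of projective space over `k` with homogeneous coordinates

  `∑_{l ≤ r} v_l t^(m_l) ∏_i F_i(t)^(e_il)`

with small digit vectors `v_l`, arbitrary exponents `m_l`, and bases `F_i(t)` which are values at `t`
of polynomials with small coefficients whose constant terms are roots of unity; `∑_i e_il ≤ N`.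

* If such a point lies on a closed subvariety `X` whose equations have degree at most `d` and
  coefficients of size at most `W`, and if `|Norm t| ^ (1 / [k : ℚ])` is at least a power of
  `W H N`, then either its height is bounded by a power of `H N`, or it lies on a nonconstant
  rational curve on `X`, namely the curve obtained if `t` is replaced by a variable.
* So on Brody (equivalently Kobayashi) hyperbolic `X` all such points, for all `t` beyond the bound
  together, are finite in number, with an explicit bound for the height which depends neither on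
  `X`, `k` nor `t` (only on the degree `d`).
-/

set_option autoImplicit false

namespace Pool.Agent.Results.MP_627a61_nt.PowerProducts

open Polynomial NumberField Pool.Agent.H458.Sp

variable {k : Type} [Field k] [NumberField k] {n : ℕ}

/-- Vectors `p` of polynomials of the form `p = ∑ v_l X^(m_l) ∏_i F_i^(e_il)`, `r` terms, where the
`v_l` are vectors of algebraic integers of house at most `H`, the exponents `m_l` are arbitrary, the
`F_i` (any number of them) are polynomials of total degree at most `D` with integral coefficients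
of house at most `H` whose constant terms are roots of unity, and `∑_i e_il ≤ N` for each `l`.
(`house` is the largest absolute value of the conjugates.) -/
def PowerVec (r D N : ℕ) (H : ℝ) (p : Fin (n + 1) → (𝓞 k)[X]) : Prop :=
  ∃ (q : ℕ) (F : Fin q → (𝓞 k)[X]) (m : Fin r → ℕ) (e : Fin r → Fin q → ℕ)
    (v : Fin r → Fin (n + 1) → 𝓞 k), ∑ i, (F i).natDegree ≤ D ∧
    (∀ i, ∃ j, 0 < j ∧ (F i).coeff 0 ^ j = 1) ∧
    (∀ i j, house (algebraMap (𝓞 k) k ((F i).coeff j)) ≤ H) ∧
    (∀ l, ∑ i, e l i ≤ N) ∧ (∀ l i, house (algebraMap (𝓞 k) k (v l i)) ≤ H) ∧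
    ∀ i, p i = ∑ l, C (v l i) * (X ^ m l * ∏ j, F j ^ e l j)

/-- The `k`-rational points of the closed subvariety of projective `n`-space given by the forms in
`FF` which have homogeneous coordinates `p(t)` with `p` as above. -/
def powerPoints (FF : Set (MvPolynomial (Fin (n + 1)) (𝓞 k))) (t : 𝓞 k) (r D N : ℕ) (H : ℝ) :
    Set (Projectivization k (Fin (n + 1) → k)) :=
  {P | ∃ (p : Fin (n + 1) → (𝓞 k)[X]) (h : (fun i => algebraMap (𝓞 k) k ((p i).eval t)) ≠ 0),
    PowerVec r D N H p ∧
    P = Projectivization.mk k (fun i => algebraMap (𝓞 k) k ((p i).eval t)) h ∧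
    ∀ G ∈ FF, MvPolynomial.aeval (fun i => (p i).eval t) G = 0}

/-- The points on rational curves: `P = p(a)`, where `p` is a vector of polynomials that satisfies
all equations, and the map `p` to projective space is not constant. -/
def curvePoints (FF : Set (MvPolynomial (Fin (n + 1)) (𝓞 k))) :
    Set (Projectivization k (Fin (n + 1) → k)) :=
  {P | ∃ (p : Fin (n + 1) → (𝓞 k)[X]) (a : 𝓞 k)
    (h : (fun i => algebraMap (𝓞 k) k ((p i).eval a)) ≠ 0),
    P = Projectivization.mk k (fun i => algebraMap (𝓞 k) k ((p i).eval a)) h ∧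
    (∀ G ∈ FF, MvPolynomial.aeval p G = 0) ∧
    ∃ i j, p i * C ((p j).eval a) ≠ p j * C ((p i).eval a)}

/-- The points with homogeneous coordinates that are algebraic integers of house at most `B`. -/
def small (k : Type) [Field k] [NumberField k] (n : ℕ) (B : ℝ) :
    Set (Projectivization k (Fin (n + 1) → k)) :=
  {P | ∃ (y : Fin (n + 1) → 𝓞 k) (h : (fun i => algebraMap (𝓞 k) k (y i)) ≠ 0),
    P = Projectivization.mk k (fun i => algebraMap (𝓞 k) k (y i)) h ∧
    ∀ i, house (algebraMap (𝓞 k) k (y i)) ≤ B}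

/-- The sum of the houses of the coefficients of a form. -/
noncomputable def length {n : ℕ} (G : MvPolynomial (Fin (n + 1)) (𝓞 k)) : ℝ :=
  ∑ α ∈ G.support, house (algebraMap (𝓞 k) k (MvPolynomial.coeff α G))

/-- Brody hyperbolicity of the projective zero set of the forms in `GG`: every entire curve, given
by entire functions without common zeros, is constant. -/
def Hyperbolic (GG : Set (MvPolynomial (Fin (n + 1)) ℂ)) : Prop :=
  ∀ f : Fin (n + 1) → ℂ → ℂ, (∀ i, Differentiable ℂ (f i)) → (∀ z, ∃ i, f i z ≠ 0) →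
    (∀ G ∈ GG, ∀ z, MvPolynomial.eval (fun i => f i z) G = 0) →
    ∀ z w, ∀ i j, f i z * f j w = f j z * f i w

/-- The exponent in the bounds. -/
def C₀ (r d D : ℕ) : ℕ := (D + 4) * 4 ^ ((d + 1) ^ r)

/-- `|Norm t| ^ (1 / [k : ℚ])` is at least `((r + 1) (d + 1) W H N) ^ C₀`. -/
def Large (r d D N : ℕ) (W H : ℝ) (t : 𝓞 k) : Prop :=
  ((((r : ℝ) + 1) * (d + 1) * W * H * N) ^ C₀ r d D) ^ Module.finrank ℚ k ≤
    |((Algebra.norm ℤ t : ℤ) : ℝ)|

theorem result (r d D : ℕ) (hr : 1 ≤ r) (hd : 1 ≤ d) (k : Type) [Field k] [NumberField k] (n : ℕ)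
    (FF : Set (MvPolynomial (Fin (n + 1)) (𝓞 k))) (W : ℝ) (hW : 1 ≤ W)
    (hF : ∀ G ∈ FF, (∃ e, e ≤ d ∧ G.IsHomogeneous e) ∧ length G ≤ W) (N : ℕ) (hN : 1 ≤ N) (H : ℝ)
    (hH : 1 ≤ H) :
    (∀ t : 𝓞 k, Large r d D N W H t →
      powerPoints FF t r D N H ⊆ small k n ((r * N * H) ^ C₀ r d D) ∪ curvePoints FF) ∧
    (∀ σ : k →+* ℂ, Hyperbolic ((MvPolynomial.map (σ.comp (algebraMap (𝓞 k) k))) '' FF) →
      (∀ t : 𝓞 k, Large r d D N W H t →
        powerPoints FF t r D N H ⊆ small k n ((r * N * H) ^ C₀ r d D)) ∧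
      {P | ∃ t : 𝓞 k, Large r d D N W H t ∧ P ∈ powerPoints FF t r D N H}.Finite) := by
  have key : ∀ t : 𝓞 k, Large r d D N W H t → ∀ p : Fin (n + 1) → (𝓞 k)[X],
      PowerVec r D N H p → (fun i => algebraMap (𝓞 k) k ((p i).eval t)) ≠ 0 →
      (∀ G ∈ FF, MvPolynomial.aeval (fun i => (p i).eval t) G = 0) →
      (∀ G ∈ FF, MvPolynomial.aeval p G = 0) ∧
      ((∃ i j, p i * C ((p j).eval t) ≠ p j * C ((p i).eval t)) ∨
        ∃ y : Fin (n + 1) → 𝓞 k, y ≠ 0 ∧ (∀ i j, (p i).eval t * y j = (p j).eval t * y i) ∧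
          ∀ i, hs (y i) ≤ ((r : ℝ) * N * H) ^ C₀ r d D) := by
    intro t ht p hp h0 hz
    exact Pool.Agent.Q29.SE.dich hr hd hN hW hH FF hF t ht p hp
      ((Pool.Agent.H458.Sp.ne_zero_iff _).mp h0) hz
  have hsmall : ∀ (t : 𝓞 k) (p : Fin (n + 1) → (𝓞 k)[X])
      (h0 : (fun i => algebraMap (𝓞 k) k ((p i).eval t)) ≠ 0),
      (∃ y : Fin (n + 1) → 𝓞 k, y ≠ 0 ∧ (∀ i j, (p i).eval t * y j = (p j).eval t * y i) ∧
          ∀ i, hs (y i) ≤ ((r : ℝ) * N * H) ^ C₀ r d D) →
      Projectivization.mk k (fun i => algebraMap (𝓞 k) k ((p i).eval t)) h0 ∈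
        small k n ((r * N * H) ^ C₀ r d D) := by
    rintro t p h0 ⟨y, hy0, hxy, hyB⟩
    exact ⟨y, (Pool.Agent.H458.Sp.ne_zero_iff y).2 hy0, mk_eq _ y _ _ hxy, hyB⟩
  refine ⟨?_, ?_⟩
  · rintro t ht P ⟨p, h0, hp, rfl, hz⟩
    obtain ⟨h1, h2 | h2⟩ := key t ht p hp h0 hz
    · right
      exact ⟨p, t, h0, rfl, h1, h2⟩
    · left
      exact hsmall t p h0 h2
  · intro σ hyp
    have h1 : ∀ t : 𝓞 k, Large r d D N W H t →
        powerPoints FF t r D N H ⊆ small k n ((r * N * H) ^ C₀ r d D) := by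
      rintro t ht P ⟨p, h0, hp, rfl, hz⟩
      obtain ⟨h1, ⟨i, j, hij⟩ | h2⟩ := key t ht p hp h0 hz
      · exact absurd (Pool.Agent.Q29.SE.no_curve' σ FF
          (fun G hG => let ⟨e, _, he⟩ := (hF G hG).1; ⟨e, he⟩) hyp t p
          ((Pool.Agent.H458.Sp.ne_zero_iff _).mp h0) h1 i j) hij
      · exact hsmall t p h0 h2
    refine ⟨h1, ?_⟩
    refine (smallPoints_finite (k := k) n (((r : ℝ) * N * H) ^ C₀ r d D)).subset ?_
    rintro P ⟨t, ht, hP⟩
    exact h1 t ht hP

end Pool.Agent.Results.MP_627a61_nt.PowerProducts
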