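import Pool.Agent.Q183.UH.Thm

/-!
# Uniform bounds for recurrent sequences of rational points on hyperbolic varieties

Let `X` be a closed subvariety of projective `N`-space over a field `K` of characteristic zero,
given by forms of degree at most `D`.  A sequence of points of `X` over an extension field `L` of
`K` is called recurrent of order `r` and degree `d` if it has homogeneous coordinates each of which
satisfies a nontrivial linear recurrence of order at most `r` with coefficients that are
polynomials in the index of degree at most `d`.

There are numbers `M ≥ 1` and `C` which depend only on `N`, `D`, `r` and `d` such that the following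
are equivalent:

(a) `X` contains no rational curve (over the extension fields of `K`); this holds if `X` is Brody
(equivalently Kobayashi) hyperbolic for one embedding of `K` in the complex numbers;

(b) for all `r` and `d`, all extension fields `L` of `K` and all sequences `P` of points of `X` over
`L` which are recurrent of order `r` and degree `d`, `P (t + M) = P t` for all but at most `C`
indices `t`;

(c) all these sequences have at most `M + C` different elements;

(d) over finite extensions `L` of `K`, the sequences of points with coordinates given by recurrences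
with constant coefficients have finitely many elements.

The proof: an ultraproduct of counterexamples is a sequence of points over a field of
characteristic zero, whose initial part is periodic, by the Galois theory of difference equations;
the period extends to all indices of the ultraproduct, as the relations between solutions of
nonsingular recurrences are rigid, in both directions.
-/

set_option autoImplicit false

namespace Pool.Agent.Results.MP_627a61_nt.UniformRecurrences

open MvPolynomial Pool.Agent.Q183.UH
open scoped LinearAlgebra.Projectivization

variable {N : ℕ} {K : Type} [Field K]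

/-- The maps over `E` from the projective line to the variety of the forms in `FF`, given by
polynomials, are constant. -/
def NoRationalCurve (FF : Set (MvPolynomial (Fin (N + 1)) K)) (E : Type) [Field E] [Algebra K E] :
    Prop :=
  ∀ p : Fin (N + 1) → Polynomial E, (∀ F ∈ FF, aeval p F = 0) →
    ∀ i j m n, (p i).coeff m * (p j).coeff n = (p j).coeff m * (p i).coeff n

/-- Brody hyperbolicity of the projective zero set of the forms in `GG`: every entire curve, given
by entire functions without common zeros, is constant. -/
def Hyperbolic (GG : Set (MvPolynomial (Fin (N + 1)) ℂ)) : Prop :=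
  ∀ f : Fin (N + 1) → ℂ → ℂ, (∀ i, Differentiable ℂ (f i)) → (∀ z, ∃ i, f i z ≠ 0) →
    (∀ G ∈ GG, ∀ z, MvPolynomial.eval (fun i => f i z) G = 0) →
    ∀ z w, ∀ i j, f i z * f j w = f j z * f i w

theorem result (N D : ℕ) : ∃ M C : ℕ → ℕ → ℕ, (∀ r d, 0 < M r d) ∧
    ∀ (K : Type) [Field K] [CharZero K] (FF : Set (MvPolynomial (Fin (N + 1)) K)),
      (∀ F ∈ FF, ∃ e, e ≤ D ∧ F.IsHomogeneous e) →
      (∀ σ : K →+* ℂ, Hyperbolic ((MvPolynomial.map σ) '' FF) →
        ∀ (E : Type) [Field E] [Algebra K E], NoRationalCurve FF E) ∧
      [∀ (E : Type) [Field E] [Algebra K E], NoRationalCurve FF E,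
       ∀ (L : Type) [Field L] [Algebra K L] (r d : ℕ) (P : ℕ → ℙ L (Fin (N + 1) → L)),
        RecPoints FF L r d P → {t | P (t + M r d) ≠ P t}.encard ≤ C r d,
       ∀ (L : Type) [Field L] [Algebra K L] (r d : ℕ) (P : ℕ → ℙ L (Fin (N + 1) → L)),
        RecPoints FF L r d P → (Set.range P).encard ≤ (M r d + C r d : ℕ),
       ∀ (L : Type) [Field L] [Algebra K L] [FiniteDimensional K L] (r : ℕ)
        (P : ℕ → ℙ L (Fin (N + 1) → L)), CRecPoints FF L r P → (Set.range P).Finite].TFAE := by
  obtain ⟨M, C, hM, h⟩ := pair_tfae N D
  refine ⟨M, C, hM, fun K _ _ FF hFF => ?_⟩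
  have hFF' : ∀ F ∈ FF, ∃ e, F.IsHomogeneous e := fun F hF =>
    let ⟨e, _, he⟩ := hFF F hF
    ⟨e, he⟩
  have hno : ∀ (E : Type) [Field E] [Algebra K E], RatIn FF {1} E ↔ NoRationalCurve FF E := by
    intro E _ _
    constructor
    · intro h p hp
      rcases h p hp with h1 | h1
      · exact h1
      · have h2 := h1 1 rfl
        rw [map_one] at h2
        exact absurd h2 one_ne_zero
    · intro h p hp
      exact Or.inl (h p hp)
  have hZ : ∀ {L : Type} [Field L] [Algebra K L] (P : ℙ L (Fin (N + 1) → L)),
      ¬ InZ ({1} : Set (MvPolynomial (Fin (N + 1)) K)) P := by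
    intro L _ _ P hP
    have h2 := hP 1 rfl
    rw [map_one] at h2
    exact one_ne_zero h2
  have hT := h K FF {1} hFF (fun G hG => ⟨0, Nat.zero_le _, by
    rw [Set.mem_singleton_iff.1 hG]
    exact isHomogeneous_one _ _⟩)
  have h12 : (∀ (E : Type) [Field E] [Algebra K E], RatIn FF {1} E) ↔
      ∀ (E : Type) [Field E] [Algebra K E], NoRationalCurve FF E :=
    forall_congr' fun E => forall_congr' fun _ => forall_congr' fun _ => hno E
  have h13 := hT.out 0 2
  have h14 := hT.out 0 3
  have h15 := hT.out 0 4
  refine ⟨fun σ hyp => h12.1 (fun E _ _ => brody_ratIn hFF' σ hyp E), ?_⟩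
  tfae_have 1 ↔ 2 := by
    rw [← h12, h13]
    simp only [hZ, false_and, not_false_iff, and_true]
  tfae_have 1 ↔ 3 := by
    rw [← h12, h14]
    simp only [hZ, not_false_iff, Set.ofPred_true, Set.image_univ]
  tfae_have 1 ↔ 4 := by
    rw [← h12, h15]
    simp only [hZ, not_false_iff, Set.ofPred_true, Set.image_univ]
  tfae_finish

end Pool.Agent.Results.MP_627a61_nt.UniformRecurrences
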